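import Pool.Agent.H13.TA.BcG
import Pool.Agent.H13.TA.Cln
import Pool.Agent.H13.TA.Rhr
import Pool.Agent.H13.TA.EGp
import Pool.Agent.H13.TA.Ord
import Pool.Agent.H13.TA.UltB
import Pool.Agent.H13.TA.Cst

/-!
# MP_1bad5e_ag: the surfaces `D z ^ (l ^ s) = f(t, x)` for every branch curve `f(t, x) = 0`

`F` is a finite field with `q` elements, `f ∈ F[t][x]` is monic in `x` and irreducible, `O = F[t][x]/(f)` is the coordinate
ring of the affine curve `f = 0` and `L` its field of fractions. We assume: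

* the affine curve is smooth (`f` and its two partial derivatives generate the unit ideal),
* `F` is algebraically closed in `O`,
* there is only one place of `L` above `t = ∞`,
* `√q` is not a Frobenius eigenvalue of the curve: the number of points over the field with `q ^ r` elements is a sum
  `∑ μ γ ^ r` in which no `γ` is `√q` and the real `γ` are among `± 1`, `± √q`, `± q` (by Weil this is always so).

Theorem: for a set of primes `l` for which the sum of the `1 / l` diverges the following is true for all `s ≥ 1`: over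
`F' = F(μ)`, `μ` the roots of unity of order `l ^ s'`, `s' ≥ s`, the `(1 - ζ)`-Selmer group of the Jacobian of
`D z ^ (l ^ s) = f(x)` over `F'(t)` is trivial, for every constant `D ≠ 0` and more generally for all `D ∈ F'[t]`, `D ≠ 0`,
such that there is only one prime of `F'[t][x]/(f)` above each prime factor of `D`. So there is no condition on the
divisor class group of the branch curve: every branch curve has infinitely many `l`.
-/

set_option autoImplicit false

namespace Pool.Agent.Results.MP_1bad5e_ag.EveryBranchCurve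

open Polynomial IsDedekindDomain

/-- The derivative with respect to `t` of `f ∈ F[t][x]`. -/
noncomputable def derivativeT {F : Type} [Field F] (f : F[X][X]) : F[X][X] :=
  f.sum fun i c => monomial i (derivative c)

/-- The affine curve `f = 0` is smooth: `f` and its partial derivatives generate the unit ideal. -/
def IsSmooth {F : Type} [Field F] (f : F[X][X]) : Prop :=
  Ideal.span {f, derivative f, derivativeT f} = ⊤

/-- `F` is algebraically closed in `O = F[t][x]/(f)`. -/
def ConstantsOnly {F : Type} [Field F] (f : F[X][X]) : Prop :=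
  ∀ a : AdjoinRoot f, IsAlgebraic F a → ∃ c : F, a = algebraMap F (AdjoinRoot f) c

/-- The polynomial `f` regarded as a polynomial in `x` over `K = F(t)`. -/
noncomputable def overK {F : Type} [Field F] (f : F[X][X]) : (RatFunc F)[X] :=
  f.map (algebraMap F[X] (RatFunc F))

/-- The valuation ring of `K = F(t)` at the place `t = ∞`. -/
noncomputable def inftyRing (F : Type) [Field F] : ValuationSubring (RatFunc F) :=
  open Classical in (RatFunc.inftyValuation F).valuationSubring

/-- There is only one valuation ring of `L = K[x]/(f)` above the place `t = ∞` of `K`. -/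
def OnePlace {F : Type} [Field F] (f : F[X][X]) : Prop :=
  ∀ [Fact (Irreducible (overK f))] (R R' : ValuationSubring (AdjoinRoot (overK f))),
    R.comap (algebraMap (RatFunc F) (AdjoinRoot (overK f))) = inftyRing F →
    R'.comap (algebraMap (RatFunc F) (AdjoinRoot (overK f))) = inftyRing F → R = R'

/-- The value `f(a, b)` for `(a, b) = p` with coordinates in an extension `E` of `F`. -/
noncomputable def value {F : Type} [Field F] {E : Type} [Field E] [Algebra F E] (f : F[X][X])
    (p : E × E) : E :=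
  f.eval₂ ((aeval p.1 : F[X] →ₐ[F] E) : F[X] →+* E) p.2

/-- The number of the points of `f = 0` with coordinates in the field with `q ^ r` elements, that
is, with coordinates `y` in an algebraic closure of `F` which satisfy `y ^ (q ^ r) = y`. -/
noncomputable def points {F : Type} [Field F] (f : F[X][X]) (r : ℕ) : ℕ :=
  Nat.card {p : AlgebraicClosure F × AlgebraicClosure F //
    value f p = 0 ∧ p.1 ^ Nat.card F ^ r = p.1 ∧ p.2 ^ Nat.card F ^ r = p.2}

/-- `√q` is not a Frobenius eigenvalue of the curve: the number of points over the field with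
`q ^ r` elements is `∑ μ(γ) γ ^ r` for all `r ≥ 1`, with a finite set `S` of complex numbers `γ`
whose real elements have absolute value `1`, `√q` or `q` and are different from `√q`. -/
def SqrtNotEigenvalue {F : Type} [Field F] (f : F[X][X]) : Prop :=
  ∃ (S : Finset ℂ) (μ : ℂ → ℤ),
    (∀ γ ∈ S, γ.im = 0 → γ.re ≠ √(Nat.card F : ℝ) ∧
      (γ ^ 2 = 1 ∨ γ ^ 2 = (Nat.card F : ℂ) ∨ γ ^ 2 = (Nat.card F : ℂ) ^ 2)) ∧
    ∀ r : ℕ, r ≠ 0 → (points f r : ℂ) = ∑ γ ∈ S, (μ γ : ℂ) * γ ^ r

/-- The polynomial `f` regarded as a polynomial over the extension `F'` of `F`. -/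
noncomputable def overExt {F : Type} [Field F] (F' : Type) [Field F'] [Algebra F F'] (f : F[X][X]) :
    F'[X][X] :=
  f.map (mapRingHom (algebraMap F F'))

/-- The polynomial `f` regarded as a polynomial in `x` over the completion `K_v`. -/
noncomputable def overKv {F : Type} [Field F] (f : F[X][X]) (v : HeightOneSpectrum F[X]) :
    (v.adicCompletion (RatFunc F))[X] :=
  (overK f).map (algebraMap (RatFunc F) (v.adicCompletion (RatFunc F)))

/-- The image of `D ∈ F[t]` in the completion `K_v`. -/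
noncomputable def constKv {F : Type} [Field F] (D : F[X]) (v : HeightOneSpectrum F[X]) :
    v.adicCompletion (RatFunc F) :=
  algebraMap (RatFunc F) (v.adicCompletion (RatFunc F)) (algebraMap F[X] (RatFunc F) D)

/-- The natural map from `O = F[t][x]/(f)` to `L = K[x]/(f)`. -/
noncomputable def toL {F : Type} [Field F] (f : F[X][X]) :
    AdjoinRoot f →+* AdjoinRoot (overK f) :=
  AdjoinRoot.map (algebraMap F[X] (RatFunc F)) f (overK f) dvd_rfl

/-- The natural map from `L = K[x]/(f)` to `L ⊗ K_v = K_v[x]/(f)`. -/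
noncomputable def toLv {F : Type} [Field F] (f : F[X][X]) (v : HeightOneSpectrum F[X]) :
    AdjoinRoot (overK f) →+* AdjoinRoot (overKv f v) :=
  AdjoinRoot.map (algebraMap (RatFunc F) (v.adicCompletion (RatFunc F))) (overK f) (overKv f v)
    dvd_rfl

/-- `(P, Q)` represents, over the field `k`, an effective divisor on `c z ^ m = g(x)` which is
disjoint from the points with `z = 0`, the points with `P(x) = 0` and `z = Q(x)`: `P` is monic,
prime to `g`, and divides `c Q ^ m - g`. -/
def IsMumford {k : Type} [Field k] (m : ℕ) (c : k) (g P Q : k[X]) : Prop :=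
  P.Monic ∧ IsCoprime P g ∧ P ∣ C c * Q ^ m - g

/-- The value `∏ c ^ a (x(p) - θ) = (-c ^ a) ^ r P(θ)` of the function `c ^ a (x - θ)` on the
divisor, in `k[x]/(g)`, where `θ` is the class of `x` and `r` is the degree of `P`. If `n` divides
`a d + 1`, where `d` is the degree of `g`, then `c ^ a (x - θ)` is on `c z ^ n = g(x)` near the
point at infinity the `n`-th power of a function with leading coefficient one. -/
noncomputable def descent {k : Type} [Field k] (a : ℕ) (c : k) (g P : k[X]) : AdjoinRoot g :=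
  AdjoinRoot.mk g (C (-c ^ a)) ^ P.natDegree * AdjoinRoot.mk g P

/-- The element `δ` of `k[x]/(g)` is, up to an `n`-th power, the value of the descent map of
`c z ^ n = g(x)` on a divisor: `δ γ ^ n` is a product of elements `descent a c g P ^ (n / m)`, with
`m` a divisor of `n` and `P` dividing `c Q ^ m - g`, that is, `z ^ (n / m) = Q(x)` on the divisor
with `P(x) = 0`. -/
def IsValue {k : Type} [Field k] (n a : ℕ) (c : k) (g : k[X]) (δ : AdjoinRoot g) : Prop :=
  ∃ (r : ℕ) (m : Fin r → ℕ) (P Q : Fin r → k[X]) (γ : AdjoinRoot g),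
    (∀ i, m i ∣ n ∧ IsMumford (m i) c g (P i) (Q i)) ∧
    δ * γ ^ n = ∏ i, descent a c g (P i) ^ (n / m i)

/-- `δ ∈ L^*` has norm in `K^{*n}` and, at each prime `v` of `F[t]` which does not divide `D`,
there is `b ∈ O`, in no prime of `O` above `v`, such that `δ b` is in `L ⊗ K_v` a value of the
descent map of `D z ^ n = f(x)`. -/
structure IsSelmer {F : Type} [Field F] (n a : ℕ) (D : F[X]) (f : F[X][X])
    (δ : AdjoinRoot (overK f)) : Prop where
  ne_zero : δ ≠ 0
  norm : ∃ y : RatFunc F, Algebra.norm (RatFunc F) δ = y ^ n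
  locally : ∀ v : HeightOneSpectrum F[X], D ∉ v.asIdeal → ∃ b : AdjoinRoot f,
    (∀ w : Ideal (AdjoinRoot f), w.IsPrime →
      (∀ s ∈ v.asIdeal, algebraMap F[X] (AdjoinRoot f) s ∈ w) → b ∉ w) ∧
    IsValue n a (constKv D v) (overKv f v) (toLv f v (δ * toL f b))

/-- There is at most one prime ideal of `O = F[t][x]/(f)` above each prime factor of `D`. -/
def NonsplitFactors {F : Type} [Field F] (D : F[X]) (f : F[X][X]) : Prop :=
  ∀ P : F[X], Prime P → P ∣ D → ∀ w w' : Ideal (AdjoinRoot f), w.IsPrime → w'.IsPrime →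
    algebraMap F[X] (AdjoinRoot f) P ∈ w → algebraMap F[X] (AdjoinRoot f) P ∈ w' → w = w'

/-- Over each field `F' = F(ζ)`, `ζ` a primitive root of unity of order `l ^ s'`, the polynomial
`f` is irreducible, and for `1 ≤ s ≤ s'`, `n = l ^ s`, and each `D ∈ F'[t]`, `D ≠ 0`, whose prime
factors have only one prime of `O' = F'[t][x]/(f)` above them, each `δ` satisfying the Selmer
conditions for `D z ^ n = f(x)` is an `n`-th power. -/
def TrivialSelmer {F : Type} [Field F] (f : F[X][X]) (l : ℕ) : Prop :=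
  ∀ (F' : Type) [Field F'] [Finite F'] [Algebra F F'] (s' : ℕ) (ζ : F'),
    IsPrimitiveRoot ζ (l ^ s') → IntermediateField.adjoin F {ζ} = ⊤ → s' ≠ 0 →
    Irreducible (overExt F' f) ∧
    ∀ (s a : ℕ) (D : F'[X]) (δ : AdjoinRoot (overK (overExt F' f))), s ≠ 0 → s ≤ s' →
      l ^ s ∣ a * f.natDegree + 1 → D ≠ 0 → NonsplitFactors D (overExt F' f) →
      IsSelmer (l ^ s) a D (overExt F' f) δ → ∃ z : AdjoinRoot (overK (overExt F' f)), δ = z ^ (l ^ s)

theorem isSelmer_iff {F : Type} [Field F] (n a : ℕ) (D : F[X]) (f : F[X][X])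
    (δ : AdjoinRoot (overK f)) : IsSelmer n a D f δ ↔ H80.CC.Plane.IsSelmer n a D f δ :=
  ⟨fun h => ⟨h.1, h.2, h.3⟩, fun h => ⟨h.1, h.2, h.3⟩⟩

theorem irreducible_of_isDomain {F : Type} [Field F] (f : F[X][X]) (hf : f ≠ 0)
    (h : IsDomain (AdjoinRoot f)) : Irreducible f := by
  have h1 : (Ideal.span {f}).IsPrime := (Ideal.Quotient.isDomain_iff_prime _).1 h
  exact ((Ideal.span_singleton_prime hf).1 h1).irreducible

/-- the good primes -/
theorem trivialSelmer {F : Type} [Field F] [Finite F] {f : F[X][X]} (h : H13.TA.Good f)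
    (V : ℤ[X]) (c : ℕ) (hV : H13.TA.IsZeta f V c) (l : ℕ) (hl : l.Prime) (hm : f.natDegree < l)
    (hlq : ¬ l ∣ Nat.card F)
    (hk : (orderOf (Nat.card F : ZMod l)).Coprime f.natDegree.factorial)
    (hno : ∀ b : ZMod l, (V.map (Int.castRingHom (ZMod l))).eval b = 0 →
      b ^ orderOf (Nat.card F : ZMod l) ≠ 1) : TrivialSelmer f l := by
  intro F' _ _ _ s' ζ hζ hgen hs'
  obtain ⟨j, hj⟩ := H13.TA.ordF F F' l s' hl hs' ζ hζ hgen
  set k := orderOf (Nat.card F : ZMod l) with hkdef
  have hpr : ∀ p : ℕ, p.Prime → p ∣ k * l ^ j → f.natDegree < p := by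
    intro p hp hpk
    rcases (hp.dvd_mul).1 hpk with h1 | h1
    · by_contra h2
      have h3 : p ∣ f.natDegree.factorial := (hp.dvd_factorial).2 (not_lt.1 h2)
      exact hp.one_lt.ne' (Nat.eq_one_of_dvd_coprimes hk h1 h3)
    · rw [(Nat.prime_dvd_prime_iff_eq hp hl).1 (hp.dvd_of_dvd_pow h1)]
      exact hm
  have hg : H13.TA.Good (H13.TA.bc F' f) := H13.TA.bcg h (by rw [hj]; exact hpr)
  have hded := hg.ded
  have : Fact l.Prime := ⟨hl⟩
  have hq0 : (Nat.card F : ZMod l) ≠ 0 := by
    rw [Ne, ZMod.natCast_eq_zero_iff]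
    exact hlq
  have hkl : k ∣ l - 1 := ZMod.orderOf_dvd_card_sub_one hq0
  have hco : (k * l ^ j).Coprime f.natDegree := by
    refine Nat.Coprime.symm (Nat.coprime_of_dvd fun p hp h1 h2 => ?_)
    exact absurd (hpr p hp h2) (not_lt.2 (Nat.le_of_dvd (Nat.pos_of_ne_zero h.pos) h1))
  refine ⟨irreducible_of_isDomain _ hg.monic.ne_zero hg.dom, ?_⟩
  intro s a D δ hs hss ha hD hns hδ
  have hcl : ∀ C : ClassGroup (AdjoinRoot (H13.TA.bc F' f)), C ^ (l ^ s) = 1 → C = 1 :=
    fun C hC => H13.TA.cln h hg V c hV l k j hl hkl hj hco hno s C hC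
  have hdeg : (H13.TA.bc F' f).natDegree = f.natDegree := H13.TA.bc_deg h.monic
  have hu : ∀ u : (AdjoinRoot (H13.TA.bc F' f))ˣ, ∃ c : F',
      (u : AdjoinRoot (H13.TA.bc F' f)) = algebraMap F' (AdjoinRoot (H13.TA.bc F' f)) c := by
    intro u
    obtain ⟨c, -, hc⟩ := H13.TA.unit_const hg u
    exact ⟨c, hc⟩
  exact ((H80.CC.Plane.plane_result F' (H13.TA.bc F' f) hg.monic (l ^ s) a
    (pow_ne_zero _ hl.ne_zero) (by rw [hdeg]; exact ha) D hD hns).2.2 hu).2.2 hcl δ
    (Or.inl ((isSelmer_iff _ _ _ _ _).1 hδ))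

theorem summable_mono {p q : ℕ → Prop} (h : ∀ n, q n → p n)
    (hs : Summable fun l : {l : ℕ // p l} => (1 : ℝ) / (l : ℕ)) :
    Summable fun l : {l : ℕ // q l} => (1 : ℝ) / (l : ℕ) := by
  let g : {l : ℕ // q l} → {l : ℕ // p l} := fun l => ⟨l.1, h l.1 l.2⟩
  have h1 : Function.Injective g := by
    intro a b hab
    have h3 : (g a).1 = (g b).1 := by rw [hab]
    exact Subtype.ext h3
  have h2 : (fun l : {l : ℕ // q l} => (1 : ℝ) / (l : ℕ)) =
      (fun l : {l : ℕ // p l} => (1 : ℝ) / (l : ℕ)) ∘ g := by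
    funext l
    rfl
  rw [h2]
  exact hs.comp_injective h1

theorem real_cases {q : ℕ} {S : Finset ℂ} (hS : ∀ γ ∈ S, γ.im = 0 → γ.re ≠ √(q : ℝ) ∧
    (γ ^ 2 = 1 ∨ γ ^ 2 = (q : ℂ) ∨ γ ^ 2 = (q : ℂ) ^ 2)) : ∀ γ ∈ S, γ.im = 0 →
    γ = 1 ∨ γ = -1 ∨ γ = (q : ℂ) ∨ γ = -(q : ℂ) ∨ γ = -((√(q : ℝ) : ℝ) : ℂ) := by
  intro γ hγ him
  obtain ⟨hne, h⟩ := hS γ hγ him
  rcases h with h | h | h
  · rcases sq_eq_one_iff.1 h with h1 | h1
    · exact Or.inl h1
    · exact Or.inr (Or.inl h1)
  · have h1 : (((√(q : ℝ) : ℝ) : ℂ)) ^ 2 = (q : ℂ) := by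
      rw [← Complex.ofReal_pow, Real.sq_sqrt (Nat.cast_nonneg q), Complex.ofReal_natCast]
    rw [← h1] at h
    rcases sq_eq_sq_iff_eq_or_eq_neg.1 h with h2 | h2
    · exact absurd (by rw [h2, Complex.ofReal_re]) hne
    · exact Or.inr (Or.inr (Or.inr (Or.inr h2)))
  · rcases sq_eq_sq_iff_eq_or_eq_neg.1 h with h2 | h2
    · exact Or.inr (Or.inr (Or.inl h2))
    · exact Or.inr (Or.inr (Or.inr (Or.inl h2)))

/-- **Theorem.** -/
theorem result (F : Type) [Field F] [Finite F] (f : F[X][X]) (hf : f.Monic)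
    (hirr : Irreducible f) (hs : IsSmooth f) (hc : ConstantsOnly f) (hinf : OnePlace f)
    (hz : SqrtNotEigenvalue f) :
    ¬ Summable fun l : {l : ℕ // l.Prime ∧ TrivialSelmer f l} => (1 : ℝ) / (l : ℕ) := by
  classical
  have hdom : IsDomain (AdjoinRoot f) := AdjoinRoot.isDomain_of_prime hirr.prime
  have h0 : f.natDegree ≠ 0 := by
    intro h0
    rw [hf.natDegree_eq_zero] at h0
    exact hirr.not_isUnit (h0 ▸ isUnit_one)
  have hK : Irreducible (overK f) := H94.TC.irreducible_map (RatFunc F) f hf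
  have hfact : Fact (Irreducible (H80.CC.Plane.overK f)) := ⟨hK⟩
  have hu : ∀ a b : AdjoinRoot f, H13.TA.dg f (a + b) ≤ max (H13.TA.dg f a) (H13.TA.dg f b) := by
    intro a b
    refine H13.TA.ultb hf ?_ a b
    exact @hinf ⟨hK⟩
  have hg : H13.TA.Good f := ⟨hf, h0, hs, hdom, hu, H13.TA.cst hf h0 hu hc⟩
  have hded := hg.ded
  obtain ⟨V, hV⟩ := H13.TA.zeta hg
  obtain ⟨S, μ, hS, hμ⟩ := hz
  have hq : 2 ≤ Nat.card F := Finite.one_lt_card
  have hV1 : V.eval 1 ≠ 0 := by
    intro h1
    have h2 := hV.one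
    rw [h1, mul_zero] at h2
    have : Finite (ClassGroup (AdjoinRoot f)) := H13.TA.clf hf
    have h3 : (0 : ℤ) < Nat.card (ClassGroup (AdjoinRoot f)) := by exact_mod_cast Nat.card_pos
    have h4 : (1 : ℤ) < (Nat.card F : ℤ) ^ f.natDegree :=
      one_lt_pow₀ (by exact_mod_cast hq) h0
    have h5 := mul_pos h3 (sub_pos.2 h4)
    omega
  have hreal := H13.TA.rhr (Nat.card F) f.natDegree hq h0 V hV.monic hV.zero hV1 hV.card S μ
    (real_cases hS)
    (fun r hr => by rw [← hμ r hr]; exact hV.npt r hr)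
  have hE := H13.TA.egp V hV.monic (Nat.card F) f.natDegree hq h0 hreal
  intro hsum
  exact hE (summable_mono (fun l hl => ⟨hl.1, trivialSelmer hg V _ hV l hl.1 hl.2.1 hl.2.2.1
    hl.2.2.2.1 hl.2.2.2.2⟩) hsum)

end Pool.Agent.Results.MP_1bad5e_ag.EveryBranchCurve
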