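import Pool.Agent.H13.CB.Gd
import Pool.Agent.H13.CB.Zt
import Pool.Agent.H13.CB.Rt
import Pool.Agent.H13.CB.Sp
import Pool.Agent.H13.CZ.Main
import Pool.Agent.H13.KU.Kgd
import Pool.Agent.H13.TA.Ord

/-!
# MP_1bad5e_ag: Tate's conjecture for the surfaces `z ^ (l ^ s) = f(t, x)`, `f(t, x) = 0` a smooth curve of type `C_ab`

`O` is a finitely generated domain (for example a ring of `S`-integers of a number field, a finite field, or a finitely
generated subring of a field), `a`, `b` are positive and coprime, and `f ∈ O[t][x]` is monic of degree `a` in `x`, with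
constant term of degree `b` in `t` and all monomials `t ^ j x ^ i` satisfying `a j + b i ≤ a b`. The affine curve `f = 0` is
smooth over the field of fractions of `O`.

Theorem: there is `h₀ ≠ 0` in `O` such that for every homomorphism `φ` from `O` to a finite field `F` with `φ h₀ ≠ 0`
(for each `h ≠ 0` there are even surjective `φ` with `φ h ≠ 0`) the following is true for the reduction
`f_φ ∈ F[t][x]` and a set of primes `l` of positive lower density, and for all `s ≥ 1`: let `F' = F(μ)`, `μ` the roots of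
unity of order `l ^ s'`, `s' ≥ s`, let `Q` be the number of elements of `F'` and `N_r` the number of solutions of
`z ^ (l ^ s) = f_φ(t, x)` in the field with `Q ^ r` elements; if `N_r = Q ^ (2 r) + ∑ α ^ r` for all `r ≥ 1`, with a finite
family of complex numbers `α` (by Grothendieck and Deligne the eigenvalues of Frobenius on the second cohomology with
compact support have this property), then no `α` is equal to `Q`.
-/

set_option autoImplicit false

namespace Pool.Agent.Results.MP_1bad5e_ag.TateCovers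

open Polynomial

/-- The derivative with respect to `t` of `f ∈ R[t][x]`. -/
noncomputable def derivativeT {R : Type} [CommRing R] (f : R[X][X]) : R[X][X] :=
  f.sum fun i c => monomial i (derivative c)

/-- The affine curve `f = 0` is smooth: `f` and its partial derivatives generate the unit ideal. -/
def IsSmooth {R : Type} [CommRing R] (f : R[X][X]) : Prop :=
  Ideal.span {f, derivative f, derivativeT f} = ⊤

/-- `f ∈ R[t][x]` is monic of degree `a` in `x`, its constant term has degree `b` in `t`, all its monomials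
`t ^ j x ^ i` satisfy `a j + b i ≤ a b`, and `a`, `b` are positive and coprime. -/
structure IsCab {R : Type} [CommRing R] (a b : ℕ) (f : R[X][X]) : Prop where
  a_ne_zero : a ≠ 0
  b_ne_zero : b ≠ 0
  coprime : a.Coprime b
  monic : f.Monic
  natDegree_eq : f.natDegree = a
  natDegree_coeff_zero : (f.coeff 0).natDegree = b
  weight_le : ∀ i, f.coeff i ≠ 0 → a * (f.coeff i).natDegree + b * i ≤ a * b

/-- The polynomial with the coefficients mapped by `φ`. -/
noncomputable def image {R S : Type} [CommRing R] [CommRing S] (φ : R →+* S) (f : R[X][X]) : S[X][X] :=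
  f.map (mapRingHom φ)

/-- The value `f(a, b)` for `(a, b) = p` with coordinates in an extension `E` of `F`. -/
noncomputable def value {F : Type} [Field F] {E : Type} [Field E] [Algebra F E] (f : F[X][X])
    (p : E × E) : E :=
  f.eval₂ ((aeval p.1 : F[X] →ₐ[F] E) : F[X] →+* E) p.2

/-- The number of the points of the surface `f(t, x) = z ^ n` with coordinates in the field with `q ^ r` elements, that
is, with coordinates `y` in an algebraic closure of `F` which satisfy `y ^ (q ^ r) = y`, `q` the number of elements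
of `F`. -/
noncomputable def points {F : Type} [Field F] (n : ℕ) (f : F[X][X]) (r : ℕ) : ℕ :=
  Nat.card {p : (AlgebraicClosure F × AlgebraicClosure F) × AlgebraicClosure F //
    value f p.1 = p.2 ^ n ∧ p.1.1 ^ Nat.card F ^ r = p.1.1 ∧ p.1.2 ^ Nat.card F ^ r = p.1.2 ∧
      p.2 ^ Nat.card F ^ r = p.2}

/-- `F` has `q` elements and `q` is not an eigenvalue of Frobenius for the surface `f(t, x) = z ^ n`: if the number of its
points over the field with `q ^ r` elements is `q ^ (2 r) + ∑ α ^ r` for all `r ≥ 1`, with a finite multiset of complex numbers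
`α`, then `q` is none of the `α`. -/
def NoEigenvalue {F : Type} [Field F] (n : ℕ) (f : F[X][X]) : Prop :=
  ∀ A : Multiset ℂ, (∀ r : ℕ, r ≠ 0 →
    (points n f r : ℂ) = (Nat.card F : ℂ) ^ (2 * r) + (A.map fun α => α ^ r).sum) →
    (Nat.card F : ℂ) ∉ A

/-- For each field `F' = F(ζ)`, `ζ` a primitive root of unity of order `l ^ s'`, `s' ≥ 1`, and each surface
`f(t, x) = z ^ (l ^ s)` over `F'`, `1 ≤ s ≤ s'`, the number of elements of `F'` is not an eigenvalue of Frobenius. -/
def TateFor {F : Type} [Field F] (f : F[X][X]) (l : ℕ) : Prop :=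
  ∀ (F' : Type) [Field F'] [Finite F'] [Algebra F F'] (s' : ℕ) (ζ : F'),
    IsPrimitiveRoot ζ (l ^ s') → IntermediateField.adjoin F {ζ} = ⊤ → ∀ s : ℕ, s ≠ 0 → s ≤ s' →
    NoEigenvalue (l ^ s) (image (algebraMap F F') f)

/-- The primes with the property `P` have positive lower density (Dirichlet density): for some `c > 0`, `C` the sum of
`l ^ (-s)` over these primes is at least `c log (1 / (s - 1)) - C` for `1 < s ≤ 2`. -/
def PositiveDensity (P : ℕ → Prop) : Prop :=
  ∃ c C : ℝ, 0 < c ∧ ∀ s : ℝ, 1 < s → s ≤ 2 →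
    c * Real.log (1 / (s - 1)) - C ≤ ∑' l : {l : ℕ // l.Prime ∧ P l}, ((l : ℕ) : ℝ) ^ (-s)

theorem isCab_iff {R : Type} [CommRing R] (a b : ℕ) (f : R[X][X]) :
    IsCab a b f ↔ H13.CB.Cab a b f :=
  ⟨fun h => ⟨h.1, h.2, h.3, h.4, h.5, h.6, h.7⟩, fun h => ⟨h.1, h.2, h.3, h.4, h.5, h.6, h.7⟩⟩

theorem exists_zeta {F : Type} [Field F] {a b : ℕ} {f : F[X][X]} (h : H13.CB.Cab a b f)
    (hs : Ideal.span {f, derivative f, H13.TA.dt f} = ⊤) (F' : Type) [Field F'] [Finite F']
    [Algebra F F'] : ∃ (V : ℤ[X]) (c : ℕ), H13.CB.IsZ (H13.TA.bc F' f) V c := by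
  have h' : H13.CB.Cab a b (H13.TA.bc F' f) := H13.CB.cab_bc h F'
  have hg : H13.TA.Good (H13.TA.bc F' f) := H13.CB.good h' (H13.TA.bc_smooth hs)
  have hded := hg.ded
  obtain ⟨V, hV⟩ := H13.CB.zeta1 hg (H13.CB.consec h')
  exact ⟨V, _, hV⟩

/-- the good primes -/
theorem tateFor {F : Type} [Field F] [Finite F] {a b : ℕ} {f : F[X][X]}
    (h : H13.CB.Cab a b f) (hsm : Ideal.span {f, derivative f, H13.TA.dt f} = ⊤) (V : ℤ[X]) (c : ℕ)
    (hV : H13.CB.IsZ f V c) (l : ℕ) (hl : l.Prime) (hlq : ¬ l ∣ Nat.card F)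
    (hno : ∀ b : ZMod l, (V.map (Int.castRingHom (ZMod l))).eval b = 0 →
      b ^ orderOf (Nat.card F : ZMod l) ≠ 1) : TateFor f l := by
  intro F' _ _ _ s' ζ hζ hgen s hs hss
  obtain ⟨j, hj⟩ := H13.TA.ordF F F' l s' hl (by omega) ζ hζ hgen
  have : Fact l.Prime := ⟨hl⟩
  have hq0 : (Nat.card F : ZMod l) ≠ 0 := by
    rw [Ne, ZMod.natCast_eq_zero_iff]
    exact hlq
  have hkl : orderOf (Nat.card F : ZMod l) ∣ l - 1 := ZMod.orderOf_dvd_card_sub_one hq0
  obtain ⟨V', c', hV'⟩ := exists_zeta h hsm F'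
  have hcl := H13.CB.cl1 hV hV' l _ j hl hkl hj hno
  have hdiv : l ^ s' ∣ Nat.card F' - 1 := by
    have hζ0 : ζ ≠ 0 := hζ.ne_zero (pow_ne_zero _ hl.ne_zero)
    have h1 : ζ ^ (Nat.card F' - 1) = 1 := by
      have := Fintype.ofFinite F'
      rw [Nat.card_eq_fintype_card]
      exact FiniteField.pow_card_sub_one_eq_one ζ hζ0
    exact hζ.dvd_of_pow_eq_one _ h1
  have hdiv' : l ^ s ∣ Nat.card F' - 1 := (pow_dvd_pow l hss).trans hdiv
  intro A hA
  exact H13.CZ.noeig hV' l s hl hs hdiv' hcl A hA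

theorem finite_case {F : Type} [Field F] [Finite F] {a b : ℕ} {f : F[X][X]}
    (h : H13.CB.Cab a b f) (hsm : Ideal.span {f, derivative f, H13.TA.dt f} = ⊤) :
    PositiveDensity (TateFor f) := by
  have hg : H13.TA.Good f := H13.CB.good h hsm
  have hded := hg.ded
  obtain ⟨V, hV⟩ := H13.CB.zeta1 hg (H13.CB.consec h)
  have hq : 2 ≤ Nat.card F := Finite.one_lt_card
  have hroots : ∀ γ : ℂ, aeval γ V = 0 → ∀ r c : ℕ, r ≠ 0 → γ ^ r ≠ (Nat.card F : ℂ) ^ (r * c) :=
    fun γ hγ r c hr => H13.CB.rt hV (fun F' _ _ _ => exists_zeta h hsm F') γ hγ r c hr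
  have hE := H13.KU.kgd V hV.monic (Nat.card F) hq hroots (Nat.card F)
  refine H13.KU.posDens_mono (fun l hl hl2 => ?_) hE
  refine tateFor h hsm V _ hV l hl ?_ hl2.2
  intro hd
  exact absurd (Nat.le_of_dvd (by omega) hd) (not_le.2 hl2.1)

/-- **Theorem.** -/
theorem result (O : Type) [CommRing O] [IsDomain O] [Algebra.FiniteType ℤ O] (a b : ℕ)
    (f : O[X][X]) (hf : IsCab a b f)
    (hs : IsSmooth (image (algebraMap O (FractionRing O)) f)) :
    (∀ h : O, h ≠ 0 → ∃ (F : Type) (_ : Field F) (_ : Finite F) (φ : O →+* F),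
      Function.Surjective φ ∧ φ h ≠ 0) ∧
    ∃ h₀ : O, h₀ ≠ 0 ∧ ∀ (F : Type) [Field F] [Finite F] (φ : O →+* F), φ h₀ ≠ 0 →
      IsCab a b (image φ f) ∧ IsSmooth (image φ f) ∧
      PositiveDensity fun l => TateFor (image φ f) l := by
  refine ⟨fun h hh => H13.CB.jac O h hh, ?_⟩
  obtain ⟨h₀, h0, h1⟩ := H13.CB.spec O a b f ((isCab_iff a b f).1 hf) hs
  refine ⟨h₀, h0, fun F _ _ φ hφ => ?_⟩
  obtain ⟨h2, h3⟩ := h1 F φ hφ
  exact ⟨(isCab_iff a b _).2 h2, h3, finite_case h2 h3⟩

end Pool.Agent.Results.MP_1bad5e_ag.TateCovers
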